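import Pool.Agent.U409.OA.Stm3

/-!
Project OA (helper409), package PRODF: the evaluation of the products.
-/

set_option autoImplicit false

namespace Pool.Agent.U603.OA

open Finset Pool.Agent.U409.OA

/-- products over pairs -/
theorem prod_pairs (F : ℕ → ℕ → ℚ) (r : ℕ) :
    ∏ i : Fin r, ∏ j ∈ Ioi i, F i j = ∏ j ∈ range r, ∏ i ∈ range j, F i j := by
  have h1 : ∀ i : Fin r, ∏ j ∈ Ioi i, F i j = ∏ j : Fin r, if (i : ℕ) < j then F i j else 1 := by
    intro i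
    rw [← prod_filter]
    refine prod_congr ?_ fun _ _ => rfl
    ext j
    rw [mem_Ioi, mem_filter]
    exact ⟨fun h => ⟨mem_univ _, h⟩, fun h => h.2⟩
  simp only [h1]
  rw [prod_comm, Fin.prod_univ_eq_prod_range
    (fun j => ∏ i : Fin r, if (i : ℕ) < j then F i j else 1) r]
  refine prod_congr rfl fun j hj => ?_
  rw [Fin.prod_univ_eq_prod_range (fun i => if i < j then F i j else 1) r, ← prod_filter]
  refine prod_congr ?_ fun _ _ => rfl
  ext i
  rw [mem_filter, mem_range, mem_range]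
  rw [mem_range] at hj
  omega

/-- products over pairs of neighbours -/
theorem prod_even (f : ℕ → ℚ) (p : ℕ) :
    ∏ i ∈ range (2 * p), f i = ∏ q ∈ range p, (f (2 * q) * f (2 * q + 1)) := by
  induction p with
  | zero => simp
  | succ p ih =>
    rw [show 2 * (p + 1) = 2 * p + 1 + 1 by ring, prod_range_succ, prod_range_succ, ih, prod_range_succ]
    ring

theorem ex_even (p : ℕ) : (ex (2 * p) : ℚ) = 3 * p + 1 := by
  have : ex (2 * p) = 3 * p + 1 := by unfold ex; omega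
  rw [this]; push_cast; ring

theorem ex_odd (p : ℕ) : (ex (2 * p + 1) : ℚ) = 3 * p + 2 := by
  have : ex (2 * p + 1) = 3 * p + 2 := by unfold ex; omega
  rw [this]; push_cast; ring

/-! ### the product of the exponents -/

def E (n : ℕ) : ℚ := ∏ j : Fin (2 * n + 2), (ex j : ℚ)

theorem E_succ (n : ℕ) : E (n + 1) = E n * ((3 * n + 4) * (3 * n + 5)) := by
  unfold E
  rw [Fin.prod_univ_eq_prod_range (fun j => (ex j : ℚ)) (2 * (n + 1) + 2),
    Fin.prod_univ_eq_prod_range (fun j => (ex j : ℚ)) (2 * n + 2),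
    show 2 * (n + 1) + 2 = 2 * (n + 1) + 1 + 1 by ring, prod_range_succ, prod_range_succ, ex_even, ex_odd,
    show 2 * (n + 1) = 2 * n + 2 by ring]
  push_cast
  ring

theorem E_zero : E 0 = 2 := by
  unfold E
  rw [Fin.prod_univ_eq_prod_range (fun j => (ex j : ℚ)) (2 * 0 + 2)]
  simp [prod_range_succ, ex]
  norm_num

/-! ### the Vandermonde product of the exponents -/

def v (j : ℕ) : ℚ := ∏ i ∈ range j, ((ex j : ℚ) ^ 2 - (ex i : ℚ) ^ 2)

theorem Vn_eq (n : ℕ) : Vn n = ∏ j ∈ range (2 * n + 2), v j := by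
  unfold Vn v
  exact prod_pairs (fun i j => (ex j : ℚ) ^ 2 - (ex i : ℚ) ^ 2) (2 * n + 2)

/-- the factor -/
def H (r : ℕ) : ℚ := (3 * r + 2) * (3 * r + 3) ^ 2 * (3 * r + 4)

theorem H_prod (N : ℕ) : ∏ r ∈ range N, H r = 3 ^ N * (N.factorial : ℚ) * ((3 * N + 1).factorial : ℚ) := by
  induction N with
  | zero => simp
  | succ N ih =>
    rw [prod_range_succ, ih, show 3 * (N + 1) + 1 = 3 * N + 1 + 1 + 1 + 1 by ring, Nat.factorial_succ (3 * N + 1 + 1 + 1),
      Nat.factorial_succ (3 * N + 1 + 1), Nat.factorial_succ (3 * N + 1), Nat.factorial_succ N]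
    unfold H
    push_cast
    ring

theorem vv (p : ℕ) : v (2 * p) * v (2 * p + 1) =
    3 ^ (2 * p + 1) * ((2 * p + 1).factorial : ℚ) * ((6 * p + 1).factorial : ℚ) := by
  have h1 : v (2 * p) * v (2 * p + 1) = (6 * p + 3) * ∏ q ∈ range p, (H (p - 1 - q) * H (p + q)) := by
    unfold v
    rw [prod_range_succ (fun i => (ex (2 * p + 1) : ℚ) ^ 2 - (ex i : ℚ) ^ 2), prod_even, prod_even,
      ← mul_assoc, ← prod_mul_distrib, mul_comm]
    congr 1
    · rw [ex_even, ex_odd]; ring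
    · refine prod_congr rfl fun q hq => ?_
      rw [mem_range] at hq
      obtain ⟨s, rfl⟩ : ∃ s, p = q + 1 + s := ⟨p - q - 1, by omega⟩
      have e : q + 1 + s - 1 - q = s := by omega
      rw [e]
      simp only [ex_even, ex_odd]
      unfold H
      push_cast
      ring
  rw [h1, prod_mul_distrib, prod_range_reflect (fun r => H r) p, ← prod_range_add, ← two_mul, H_prod,
    Nat.factorial_succ (2 * p), show 3 * (2 * p) + 1 = 6 * p + 1 by ring]
  push_cast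
  ring

theorem V_succ (n : ℕ) : Vn (n + 1) = Vn n * (3 ^ (2 * n + 3) * ((2 * n + 3).factorial : ℚ) *
    ((6 * n + 7).factorial : ℚ)) := by
  rw [Vn_eq, Vn_eq, show 2 * (n + 1) + 2 = 2 * (n + 1) + 1 + 1 by ring, prod_range_succ, prod_range_succ,
    show 6 * n + 7 = 6 * (n + 1) + 1 by ring, show 2 * n + 3 = 2 * (n + 1) + 1 by ring,
    show 2 * n + 2 = 2 * (n + 1) by ring, ← vv]
  ring

theorem V_zero : Vn 0 = 3 := by
  rw [Vn_eq]
  simp [prod_range_succ, v, ex]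
  norm_num

/-! ### the Vandermonde product of the numbers `1, …, r` -/

def w (j : ℕ) : ℚ := ∏ i ∈ range j, (((i : ℚ) + 1) ^ 2 - ((j : ℚ) + 1) ^ 2)

theorem Wv_succ (r : ℕ) : Wv (r + 1) = Wv r * w r := by
  unfold Wv w
  rw [prod_pairs (fun i j => ((i : ℚ) + 1) ^ 2 - ((j : ℚ) + 1) ^ 2) (r + 1),
    prod_pairs (fun i j => ((i : ℚ) + 1) ^ 2 - ((j : ℚ) + 1) ^ 2) r, prod_range_succ]

theorem w_eq (j : ℕ) : w j * (j + 1) = (-1) ^ j * ((2 * j + 1).factorial : ℚ) := by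
  have h1 : w j = (-1) ^ j * (∏ i ∈ range j, ((j - i : ℕ) : ℚ)) * ∏ i ∈ range j, ((j + 2 + i : ℕ) : ℚ) := by
    unfold w
    have : (-1 : ℚ) ^ j = ∏ _i ∈ range j, (-1 : ℚ) := by simp
    rw [this, ← prod_mul_distrib, ← prod_mul_distrib]
    refine prod_congr rfl fun i hi => ?_
    rw [mem_range] at hi
    rw [Nat.cast_sub hi.le]
    push_cast
    ring
  have h2 : (∏ i ∈ range j, ((j - i : ℕ) : ℚ)) = (j.factorial : ℚ) := by
    rw [← Nat.cast_prod, ← Nat.descFactorial_eq_prod_range, Nat.descFactorial_self]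
  have h3 : ((j + 1).factorial : ℚ) * (∏ i ∈ range j, ((j + 2 + i : ℕ) : ℚ)) =
      ((2 * j + 1).factorial : ℚ) := by
    rw [← Nat.cast_prod, ← Nat.ascFactorial_eq_prod_range, ← Nat.cast_mul]
    have := Nat.factorial_mul_ascFactorial (j + 1) j
    rw [show j + 1 + 1 = j + 2 by ring] at this
    rw [this, show j + 1 + j = 2 * j + 1 by ring]
  rw [← h3, h1, h2, Nat.factorial_succ]
  push_cast
  ring

theorem W_succ (n : ℕ) : Wv (2 * (n + 1) + 1) =
    Wv (2 * n + 1) * (-(((4 * n + 3).factorial : ℚ) / (2 * n + 2)) * (((4 * n + 5).factorial : ℚ) / (2 * n + 3))) := by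
  have h1 := w_eq (2 * n + 1)
  have h2 := w_eq (2 * n + 2)
  rw [show 2 * (2 * n + 1) + 1 = 4 * n + 3 by ring] at h1
  rw [show 2 * (2 * n + 2) + 1 = 4 * n + 5 by ring] at h2
  have e1 : (-1 : ℚ) ^ (2 * n + 1) = -1 := by
    rw [pow_succ, pow_mul]; norm_num
  have e2 : (-1 : ℚ) ^ (2 * n + 2) = 1 := by
    rw [show 2 * n + 2 = 2 * (n + 1) by ring, pow_mul]; norm_num
  rw [e1] at h1
  rw [e2] at h2
  push_cast at h1 h2
  have h3 : w (2 * n + 1) = -(((4 * n + 3).factorial : ℚ) / (2 * n + 2)) := by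
    rw [eq_neg_iff_add_eq_zero, ← eq_neg_iff_add_eq_zero, ← neg_div, eq_div_iff (by positivity)]
    linarith
  have h4 : w (2 * n + 2) = ((4 * n + 5).factorial : ℚ) / (2 * n + 3) := by
    rw [eq_div_iff (by positivity)]
    linarith
  rw [show 2 * (n + 1) + 1 = 2 * n + 1 + 1 + 1 by ring, Wv_succ, Wv_succ, h3,
    show 2 * n + 1 + 1 = 2 * n + 2 by ring, h4]
  ring

theorem W_ne (n : ℕ) : Wv (2 * n + 1) ≠ 0 := by
  induction n with
  | zero =>
    rw [Wv_succ]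
    simp [Wv, w]
  | succ n ih =>
    rw [W_succ]
    have h1 : ((4 * n + 3).factorial : ℚ) ≠ 0 := by positivity
    have h2 : ((4 * n + 5).factorial : ℚ) ≠ 0 := by positivity
    have h3 : (2 * n + 2 : ℚ) ≠ 0 := by positivity
    have h4 : (2 * n + 3 : ℚ) ≠ 0 := by positivity
    exact mul_ne_zero ih (mul_ne_zero (neg_ne_zero.2 (div_ne_zero h1 h3)) (div_ne_zero h2 h4))

/-! ### the right side -/

def P (n : ℕ) : ℚ := ∏ i ∈ Finset.Icc 1 n,
        (((Nat.factorial (6 * i - 2) : ℕ) : ℚ) / ((Nat.factorial (2 * n + 2 * i + 1) : ℕ) : ℚ))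

theorem Dn (n : ℕ) : (∏ i ∈ Icc 1 n, ((2 * n + 2 * i + 1).factorial : ℚ)) =
    ∏ i ∈ range n, ((2 * (n + 1 + i) + 1).factorial : ℚ) := by
  rw [← Finset.Ico_add_one_right_eq_Icc, prod_Ico_eq_prod_range]
  refine prod_congr (by simp) fun i _ => ?_
  congr 2
  ring

theorem D_succ (n : ℕ) : (∏ i ∈ Icc 1 (n + 1), ((2 * (n + 1) + 2 * i + 1).factorial : ℚ)) *
      ((2 * n + 3).factorial : ℚ) =
    (∏ i ∈ Icc 1 n, ((2 * n + 2 * i + 1).factorial : ℚ)) * (((4 * n + 3).factorial : ℚ) *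
      ((4 * n + 5).factorial : ℚ)) := by
  rw [Dn, Dn]
  have h1 := prod_range_succ' (fun i => ((2 * (n + 1 + i) + 1).factorial : ℚ)) (n + 1)
  rw [prod_range_succ, prod_range_succ] at h1
  have e1 : 2 * (n + 1 + n) + 1 = 4 * n + 3 := by ring
  have e2 : 2 * (n + 1 + (n + 1)) + 1 = 4 * n + 5 := by ring
  have e3 : 2 * (n + 1 + 0) + 1 = 2 * n + 3 := by ring
  rw [e1, e2, e3] at h1
  rw [← mul_assoc, h1]
  congr 1
  refine prod_congr rfl fun i _ => ?_
  congr 2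
  ring

theorem P_succ (n : ℕ) : P (n + 1) = P n * (((6 * n + 4).factorial : ℚ) * ((2 * n + 3).factorial : ℚ) /
    (((4 * n + 3).factorial : ℚ) * ((4 * n + 5).factorial : ℚ))) := by
  unfold P
  rw [prod_div_distrib, prod_div_distrib]
  have h1 := D_succ n
  have h2 : ∏ i ∈ Icc 1 (n + 1), ((6 * i - 2).factorial : ℚ) =
      (∏ i ∈ Icc 1 n, ((6 * i - 2).factorial : ℚ)) * ((6 * n + 4).factorial : ℚ) := by
    rw [prod_Icc_succ_top (by omega)]
    congr 3
  rw [h2]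
  have n1 : (∏ i ∈ Icc 1 (n + 1), ((2 * (n + 1) + 2 * i + 1).factorial : ℚ)) ≠ 0 :=
    prod_ne_zero_iff.2 fun i _ => by positivity
  have n2 : (∏ i ∈ Icc 1 n, ((2 * n + 2 * i + 1).factorial : ℚ)) ≠ 0 :=
    prod_ne_zero_iff.2 fun i _ => by positivity
  have n3 : ((4 * n + 3).factorial : ℚ) ≠ 0 := by positivity
  have n4 : ((4 * n + 5).factorial : ℚ) ≠ 0 := by positivity
  rw [div_mul_div_comm, div_eq_div_iff n1 (by positivity)]
  linear_combination -(∏ i ∈ Icc 1 n, ((6 * i - 2).factorial : ℚ)) * ((6 * n + 4).factorial : ℚ) * h1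

def I (n : ℕ) : ℚ := ∏ i ∈ Icc 1 n, ((6 * i - 1 : ℚ) * (6 * i + 1))

theorem I_succ (n : ℕ) : I (n + 1) = I n * ((6 * n + 5) * (6 * n + 7)) := by
  unfold I
  rw [prod_Icc_succ_top (by omega)]
  push_cast
  ring

theorem I_ne (n : ℕ) : I n ≠ 0 := by
  induction n with
  | zero => simp [I]
  | succ n ih =>
    rw [I_succ]
    exact mul_ne_zero ih (by positivity)

theorem main (n : ℕ) :
    (-1) ^ n * E n * Vn n *
      (2 / 3 * (4 / 9) ^ n / (((2 * n + 1).factorial : ℚ) * I n)) /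
      (3 ^ (n ^ 2) * 4 ^ (n + 1) * ((2 * n + 1).factorial : ℚ) * Wv (2 * n + 1)) =
    (2 : ℚ) ^ n / 2 * ((Nat.factorial (3 * n + 2) : ℕ) : ℚ) / ((Nat.factorial (2 * n + 1) : ℕ) : ℚ) * P n := by
  induction n with
  | zero =>
    have hW : Wv (2 * 0 + 1) = 1 := by
      rw [Wv_succ]
      simp [Wv, w]
    rw [E_zero, V_zero, hW]
    simp [I, P]
    norm_num
  | succ n ih =>
    rw [E_succ, V_succ, I_succ, W_succ, P_succ]
    have f1 : ((2 * (n + 1) + 1).factorial : ℚ) = (2 * n + 3) * ((2 * n + 2) * ((2 * n + 1).factorial : ℚ)) := by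
      rw [show 2 * (n + 1) + 1 = 2 * n + 1 + 1 + 1 by ring, Nat.factorial_succ (2 * n + 1 + 1), Nat.factorial_succ (2 * n + 1)]
      push_cast
      ring
    have f2 : ((2 * n + 3).factorial : ℚ) = (2 * n + 3) * ((2 * n + 2) * ((2 * n + 1).factorial : ℚ)) := by
      rw [show 2 * n + 3 = 2 * n + 1 + 1 + 1 by ring, Nat.factorial_succ (2 * n + 1 + 1), Nat.factorial_succ (2 * n + 1)]
      push_cast
      ring
    have f3 : ((6 * n + 7).factorial : ℚ) =
        (6 * n + 7) * ((6 * n + 6) * ((6 * n + 5) * ((6 * n + 4).factorial : ℚ))) := by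
      rw [show 6 * n + 7 = 6 * n + 4 + 1 + 1 + 1 by ring, Nat.factorial_succ (6 * n + 4 + 1 + 1),
        Nat.factorial_succ (6 * n + 4 + 1), Nat.factorial_succ (6 * n + 4)]
      push_cast
      ring
    have f4 : ((3 * (n + 1) + 2).factorial : ℚ) =
        (3 * n + 5) * ((3 * n + 4) * ((3 * n + 3) * ((3 * n + 2).factorial : ℚ))) := by
      rw [show 3 * (n + 1) + 2 = 3 * n + 2 + 1 + 1 + 1 by ring, Nat.factorial_succ (3 * n + 2 + 1 + 1),
        Nat.factorial_succ (3 * n + 2 + 1), Nat.factorial_succ (3 * n + 2)]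
      push_cast
      ring
    have f5 : (3 : ℚ) ^ ((n + 1) ^ 2) = 3 ^ (n ^ 2) * 3 ^ (2 * n + 1) := by
      rw [← pow_add]
      congr 1
      ring
    have f6 : (3 : ℚ) ^ (2 * n + 3) = 9 * 3 ^ (2 * n + 1) := by
      rw [show 2 * n + 3 = 2 * n + 1 + 2 by ring, pow_add]
      ring
    rw [f1, f2, f3, f4, f5, f6, pow_succ (-1 : ℚ) n, pow_succ (4 / 9 : ℚ) n, pow_succ (4 : ℚ) (n + 1),
      pow_succ (2 : ℚ) n]
    have n1 := W_ne n
    have n2 := I_ne n
    have n3 : ((2 * n + 1).factorial : ℚ) ≠ 0 := by positivity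
    have n4 : ((4 * n + 3).factorial : ℚ) ≠ 0 := by positivity
    have n5 : ((4 * n + 5).factorial : ℚ) ≠ 0 := by positivity
    have n6 : ((6 * n + 4).factorial : ℚ) ≠ 0 := by positivity
    have n7 : (3 : ℚ) ^ (n ^ 2) ≠ 0 := by positivity
    have n8 : (3 : ℚ) ^ (2 * n + 1) ≠ 0 := by positivity
    have n9 : (4 : ℚ) ^ (n + 1) ≠ 0 := by positivity
    have n10 : (2 * n + 2 : ℚ) ≠ 0 := by positivity
    have n11 : (2 * n + 3 : ℚ) ≠ 0 := by positivity
    have n12 : (6 * n + 5 : ℚ) ≠ 0 := by positivity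
    have n13 : (6 * n + 7 : ℚ) ≠ 0 := by positivity
    have key : ∀ (s e V t f J c d W g F3 F5 c1 x Q R pn : ℚ), f ≠ 0 → J ≠ 0 → c ≠ 0 → d ≠ 0 → W ≠ 0 → F3 ≠ 0 →
        F5 ≠ 0 → c1 ≠ 0 → x + 2 ≠ 0 → x + 3 ≠ 0 → 3 * x + 5 ≠ 0 → 3 * x + 7 ≠ 0 →
        s * e * V * (2 / 3 * t / (f * J)) / (c * d * f * W) = Q / 2 * R / f * pn →
        s * -1 * (e * ((3 * x / 2 + 4) * (3 * x / 2 + 5))) *
          (V * (9 * c1 * ((x + 3) * ((x + 2) * f)) * ((3 * x + 7) * ((3 * x + 6) * ((3 * x + 5) * g))))) *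
          (2 / 3 * (t * (4 / 9)) / ((x + 3) * ((x + 2) * f) * (J * ((3 * x + 5) * (3 * x + 7))))) /
          (c * c1 * (d * 4) * ((x + 3) * ((x + 2) * f)) * (W * (-(F3 / (x + 2)) * (F5 / (x + 3))))) =
        Q * 2 / 2 * ((3 * x / 2 + 5) * ((3 * x / 2 + 4) * ((3 * x / 2 + 3) * R))) / ((x + 3) * ((x + 2) * f)) *
          (pn * (g * ((x + 3) * ((x + 2) * f)) / (F3 * F5))) := by
      intro s e V t f J c d W g F3 F5 c1 x Q R pn hf hJ hc hd hW hF3 hF5 hc1 hx2 hx3 hx5 hx7 h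
      have hL : s * -1 * (e * ((3 * x / 2 + 4) * (3 * x / 2 + 5))) *
          (V * (9 * c1 * ((x + 3) * ((x + 2) * f)) * ((3 * x + 7) * ((3 * x + 6) * ((3 * x + 5) * g))))) *
          (2 / 3 * (t * (4 / 9)) / ((x + 3) * ((x + 2) * f) * (J * ((3 * x + 5) * (3 * x + 7))))) /
          (c * c1 * (d * 4) * ((x + 3) * ((x + 2) * f)) * (W * (-(F3 / (x + 2)) * (F5 / (x + 3))))) =
          (s * e * V * (2 / 3 * t / (f * J)) / (c * d * f * W)) *
            ((3 * x / 2 + 4) * (3 * x / 2 + 5) * (3 * x + 6) * f * g / (F3 * F5)) := by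
        field_simp
      rw [hL, h]
      field_simp
      ring
    have h := key ((-1) ^ n) (E n) (Vn n) ((4 / 9) ^ n) ((2 * n + 1).factorial : ℚ) (I n) (3 ^ (n ^ 2))
      (4 ^ (n + 1)) (Wv (2 * n + 1)) ((6 * n + 4).factorial : ℚ) ((4 * n + 3).factorial : ℚ)
      ((4 * n + 5).factorial : ℚ) (3 ^ (2 * n + 1)) (2 * n) (2 ^ n) ((3 * n + 2).factorial : ℚ) (P n) n3 n2 n7 n9 n1
      n4 n5 n8 (by positivity) (by positivity) (by positivity) (by positivity) ih
    have g1 : (3 * (2 * (n : ℚ)) / 2 + 4) = 3 * n + 4 := by ring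
    have g2 : (3 * (2 * (n : ℚ)) / 2 + 5) = 3 * n + 5 := by ring
    have g3 : (3 * (2 * (n : ℚ)) / 2 + 3) = 3 * n + 3 := by ring
    have g4 : (3 * (2 * (n : ℚ)) + 7) = 6 * n + 7 := by ring
    have g5 : (3 * (2 * (n : ℚ)) + 6) = 6 * n + 6 := by ring
    have g6 : (3 * (2 * (n : ℚ)) + 5) = 6 * n + 5 := by ring
    rw [g1, g2, g3, g4, g5, g6] at h
    exact h

theorem t_PRODF : S_PRODF := by
  intro n hn
  have h := main n
  have e : (2 : ℚ) ^ (n - 1) = 2 ^ n / 2 := by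
    obtain ⟨m, rfl⟩ : ∃ m, n = m + 1 := ⟨n - 1, by omega⟩
    rw [Nat.add_sub_cancel, pow_succ]
    ring
  rw [e]
  exact h

end Pool.Agent.U603.OA
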